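import Pool.Agent.H.MP_340332_ag.D

namespace Pool.Agent.Results.MP_eab3e1_ag.No
open Polynomial Pool.Agent.H.MP_340332_ag

universe u

theorem result (K : Type u) [Field K] [IsAlgClosed K] [CharZero K] :
    ∃ (A : Type u) (_ : CommRing A) (_ : Algebra K A),
      IsDomain A ∧ Algebra.FiniteType K A ∧ (∃ D : Derivation K A A, IsLND D ∧ D ≠ 0) ∧
        HD K A[X] ≠ ⊤ ∧ ∃ w ∈ HD K A[X], w.coeff 1 ∉ imI K A := by
  let x : LaurentPolynomial K := LaurentPolynomial.T 1 - 1
  let a : LaurentPolynomial K := LaurentPolynomial.T 1 - 2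
  have hm : a * x ^ 2 ≠ 0 := by
    intro h
    have := congrArg (evL (IsUnit.mk0 (3 : K) three_ne_zero)) h
    simp only [a, x, map_sub, map_mul, map_pow, evL_T, map_one, map_zero, map_ofNat] at this
    norm_num at this
  have hx : evL (isUnit_one (M := K)) x = 0 := by simp [x]
  have ha : evL (isUnit_one (M := K)) a = -1 := by
    simp only [a, map_sub, evL_T, map_ofNat]; norm_num
  refine ⟨Q (a * x ^ 2) (a * x * a), inferInstance, inferInstance, dom hm, finT _ _,
    nonrigid hm, (typeB (IsUnit.mk0 (2 : K) two_ne_zero) (m1 := x ^ 2) (e1 := x)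
      (by rw [map_ofNat]) (by rw [map_ofNat]; ring) ?_ hm).1, _,
      psi_mem K hm rfl rfl _ _ _ _ _ _ _ _ rfl rfl rfl rfl rfl rfl rfl rfl, fun h => ?_⟩
  · simp only [x, map_sub, map_pow, evL_T, map_one]; norm_num
  · let π := mkQ (m := a * x ^ 2) (e := a * x * a) (evL (isUnit_one (M := K))) 0 0 (by simp [hx])
    have h1 := imI_le hm π (by simp [π, hx]) (by simp [π]) h
    rw [RingHom.mem_ker, ← coeff_map, ← coe_mapRingHom] at h1
    have e1 : ∀ r : LaurentPolynomial K, mapRingHom π (algebraMap _ _ r) = C (evL (isUnit_one (M := K)) r) := by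
      intro r; simp [π, Polynomial.algebraMap_apply]
    have e2 : mapRingHom π (C (yy _ _)) = 0 := by simp [π]
    have e3 : mapRingHom π (C (zz _ _)) = 0 := by simp [π]
    have e4 : mapRingHom π X = X := by simp
    simp only [map_add, map_sub, map_mul, map_pow, map_ofNat, e1, e2, e3, e4, hx, ha, map_neg,
      map_one, map_zero] at h1
    ring_nf at h1
    simp at h1

end Pool.Agent.Results.MP_eab3e1_ag.No
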